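import Mathlib
import Pool.Agent.H5.SemiL

set_option autoImplicit false

namespace Pool.Agent.Results.MP_5a7388_gt.No

open Set

/-- `s`-complete: every nonempty subsemilattice `S` has an infimum lying in the closure of `↑S`,
and every nonempty chain `C` has a supremum lying in the closure of `↓C`. -/
def SComplete (Y : Type) [TopologicalSpace Y] [SemilatticeInf Y] : Prop :=
  (∀ S : Set Y, S.Nonempty → (∀ x ∈ S, ∀ y ∈ S, x ⊓ y ∈ S) →
    ∃ m, IsGLB S m ∧ m ∈ closure {z | ∃ s ∈ S, s ≤ z}) ∧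
  ∀ C : Set Y, C.Nonempty → IsChain (· ≤ ·) C →
    ∃ m, IsLUB C m ∧ m ∈ closure {z | ∃ c ∈ C, z ≤ c}

/-- `c`-complete: for every closed upper set `F` and every nonempty chain `C ⊆ F`, the infimum
of `C` exists and lies in `F`, and the supremum exists and lies in the closure of `↓C`. -/
def CComplete (Y : Type) [TopologicalSpace Y] [SemilatticeInf Y] : Prop :=
  ∀ F : Set Y, IsClosed F → IsUpperSet F → ∀ C ⊆ F, C.Nonempty → IsChain (· ≤ ·) C →
    (∃ m, IsGLB C m ∧ m ∈ F) ∧ ∃ m, IsLUB C m ∧ m ∈ closure {z | ∃ c ∈ C, z ≤ c}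

open Pool.Agent.H5.SemiL in
theorem result : ∃ (X : Type) (_ : TopologicalSpace X) (_ : SemilatticeInf X),
    T2Space X ∧ ContinuousInf X ∧ CComplete X ∧ ¬ SComplete X := by
  refine ⟨X, inferInstance, inferInstance, t2, cont, fun F hF hF' C hCF hne hC => ⟨?_, ?_⟩,
    fun h => ?_⟩
  · obtain ⟨M, hM, hCM⟩ := hC.exists_maxChain
    obtain ⟨m, -, h1, -, h3⟩ := infimum hM hCM hne
    refine ⟨m, ⟨h1, fun l hl => ?_⟩, hF.closure_subset_iff.2 ?_ h3⟩
    · haveI := cont
      have hc : IsClosed {y : X | l ⊓ y = l} :=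
        isClosed_eq (continuous_const.inf continuous_id) continuous_const
      refine inf_eq_left.1 (hc.closure_subset_iff.2 ?_ h3)
      rintro y ⟨-, s, hs, h⟩
      exact inf_eq_left.2 ((hl hs).trans h)
    · rintro y ⟨-, s, hs, h⟩
      exact hF' h (hCF hs)
  · obtain ⟨m, hm, h⟩ := greatest hC hne
    exact ⟨m, ⟨h, fun l hl => hl hm⟩, subset_closure ⟨m, hm, le_rfl⟩⟩
  · obtain ⟨m, h1, h2⟩ := h.1 (range X.fin) ⟨_, ∅, rfl⟩ sub
    exact bad h1.1 h2

end Pool.Agent.Results.MP_5a7388_gt.No
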